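import Mathlib

set_option autoImplicit false

open Cardinal Set Order

universe u

namespace Pool.Agent.Results.MP_711cdf_lc.NoLargeFreeSet

/-! ### Tools -/

/-- Recursion along a well-order where each value is only required to satisfy a property
depending on the earlier values. -/
lemma exists_rec {ι : Type*} {β : Type*} [LinearOrder ι] [WellFoundedLT ι] [Nonempty β]
    (P : ι → (ι → β) → β → Prop)
    (hcongr : ∀ i F G s, (∀ j < i, F j = G j) → P i F s → P i G s)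
    (hstep : ∀ i F, (∀ j < i, P j F (F j)) → ∃ s, P i F s) :
    ∃ F : ι → β, ∀ i, P i F (F i) := by
  classical
  let d : β := Classical.arbitrary β
  let F : ι → β := (wellFounded_lt (α := ι)).fix (fun i rec =>
    if h : ∃ s, P i (fun j => if hj : j < i then rec j hj else d) s then h.choose else d)
  have hF : ∀ i, F i = if h : ∃ s, P i (fun j => if j < i then F j else d) s
      then h.choose else d := by
    intro i
    show (wellFounded_lt (α := ι)).fix _ i = _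
    rw [WellFounded.fix_eq]
    rfl
  refine ⟨F, ?_⟩
  intro i
  induction i using (wellFounded_lt (α := ι)).induction with
  | _ i ih =>
    obtain ⟨s, hs⟩ := hstep i F ih
    have h1 : ∃ s, P i (fun j => if j < i then F j else d) s :=
      ⟨s, hcongr i F _ s (fun j hj => by simp [hj]) hs⟩
    rw [hF i, dif_pos h1]
    exact hcongr i _ F _ (fun j hj => by simp [hj]) h1.choose_spec

/-- union bound, `≤` version -/
lemma mk_iUnion_le_of {ι α : Type u} {f : ι → Set α} {c : Cardinal.{u}} (hc : ℵ₀ ≤ c)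
    (hι : #ι ≤ c) (hf : ∀ i, #(f i) ≤ c) : #(⋃ i, f i) ≤ c := by
  calc #(⋃ i, f i) ≤ #ι * ⨆ i, #(f i) := mk_iUnion_le f
    _ ≤ c * c := mul_le_mul' hι (ciSup_le' hf)
    _ = c := mul_eq_self hc

lemma mk_biUnion_le_of {ι α : Type u} {s : Set ι} {f : ι → Set α} {c : Cardinal.{u}} (hc : ℵ₀ ≤ c)
    (hι : #s ≤ c) (hf : ∀ i ∈ s, #(f i) ≤ c) : #(⋃ i ∈ s, f i : Set α) ≤ c := by
  rw [biUnion_eq_iUnion]
  exact mk_iUnion_le_of hc hι (fun i => hf i i.2)

lemma regular_aleph (k : ℕ) : (ℵ_ (k : Ordinal.{u})).IsRegular := by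
  cases k with
  | zero => simpa using isRegular_aleph0
  | succ k => 
    have := isRegular_aleph_add_one (k : Ordinal.{u})
    simpa using this

lemma aleph_nat_lt_omega (k : ℕ) : ℵ_ (k : Ordinal.{u}) < ℵ_ Ordinal.omega0 := by
  rw [aleph_lt_aleph]
  exact Ordinal.natCast_lt_omega0 k

lemma lt_aleph_succ_nat {k : ℕ} {c : Cardinal.{u}} :
    c < ℵ_ ((k + 1 : ℕ) : Ordinal.{u}) ↔ c ≤ ℵ_ (k : Ordinal.{u}) := by
  have : ℵ_ ((k + 1 : ℕ) : Ordinal.{u}) = succ (ℵ_ (k : Ordinal.{u})) := by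
    rw [succ_aleph]; norm_cast
  rw [this, lt_succ_iff]

lemma aleph_nat_mono {k l : ℕ} (h : k ≤ l) : ℵ_ (k : Ordinal.{u}) ≤ ℵ_ (l : Ordinal.{u}) := by
  rw [aleph_le_aleph]; exact_mod_cast h

/-- a filtration of a set of size at most `ℵ_ω` -/
lemma exists_filtration {α : Type u} (X : Set α) (hX : #X ≤ ℵ_ Ordinal.omega0) :
    ∃ D : ℕ → Set α, (∀ m n, m ≤ n → D m ⊆ D n) ∧ (⋃ n, D n) = X ∧
      ∀ n : ℕ, #(D n) ≤ ℵ_ (n : Ordinal.{u}) := by
  have hsum : ℵ_ Ordinal.omega0.{u} ≤ sum (fun n : ULift.{u} ℕ => ℵ_ (n.down : Ordinal.{u})) := by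
    rw [aleph_limit Ordinal.isSuccLimit_omega0]
    apply ciSup_le'
    rintro ⟨a, ha⟩
    obtain ⟨n, rfl⟩ := Ordinal.lt_omega0.mp ha
    exact le_sum (fun n : ULift.{u} ℕ => ℵ_ (n.down : Ordinal.{u})) ⟨n⟩
  have hcard : #X ≤ #(Σ n : ULift.{u} ℕ, (ℵ_ (n.down : Ordinal.{u})).out) := by
    rw [mk_sigma]
    simpa using hX.trans hsum
  obtain ⟨j⟩ := (Cardinal.le_def _ _).mp hcard
  refine ⟨fun n => {a | ∃ h : a ∈ X, (j ⟨a, h⟩).1.down ≤ n}, ?_, ?_, ?_⟩
  · rintro m n hmn a ⟨h, ha⟩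
    exact ⟨h, ha.trans hmn⟩
  · ext a
    simp only [mem_iUnion, mem_ofPred_eq]
    constructor
    · rintro ⟨n, h, -⟩
      exact h
    · intro h
      exact ⟨_, h, le_rfl⟩
  · intro n
    -- injection into the sigma type over `Fin (n+1)`
    have h1 : #({a | ∃ h : a ∈ X, (j ⟨a, h⟩).1.down ≤ n} : Set α) ≤
        #(⋃ m : ULift.{u} (Fin (n + 1)), 
          {a | ∃ h : a ∈ X, (j ⟨a, h⟩).1.down = (m.down : ℕ)} : Set α) := by
      apply mk_le_mk_of_subset
      rintro a ⟨h, ha⟩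
      simp only [mem_iUnion, mem_ofPred_eq]
      exact ⟨⟨⟨(j ⟨a, h⟩).1.down, Nat.lt_succ_of_le ha⟩⟩, h, rfl⟩
    refine h1.trans (mk_iUnion_le_of (aleph0_le_aleph _) ?_ ?_)
    · simp only [mk_uLift, mk_fin]
      refine le_trans ?_ (aleph0_le_aleph _)
      simp
    · rintro ⟨m, hm⟩
      have h2 : #({a | ∃ h : a ∈ X, (j ⟨a, h⟩).1.down = m} : Set α) ≤
          #((ℵ_ (m : Ordinal.{u})).out) := by
        refine ⟨⟨fun a => cast (by rw [a.2.choose_spec]) (j ⟨a.1, a.2.choose⟩).2, ?_⟩⟩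
        rintro ⟨a, ha, ha'⟩ ⟨b, hb, hb'⟩ hab
        simp only [Subtype.mk.injEq]
        have h3 : j ⟨a, ha⟩ = j ⟨b, hb⟩ := by
          apply Sigma.ext
          · have : (j ⟨a, ha⟩).1.down = (j ⟨b, hb⟩).1.down := ha'.trans hb'.symm
            exact ULift.ext _ _ this
          · have := hab
            exact (cast_heq _ _).symm.trans ((heq_of_eq hab).trans (cast_heq _ _))
        have := j.injective h3
        simpa using this
      refine h2.trans ?_
      rw [mk_out]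
      exact aleph_nat_mono (Nat.le_of_lt_succ hm)

/-! ### Ladders -/

section ladders

variable {α : Type u} [LinearOrder α] [WellFoundedLT α]

/-- `A` is a cofinal subset of `Iio ξ` of size `ℵ_k` all of whose bounded parts have size
less than `ℵ_k`. -/
def IsLadder (k : ℕ) (ξ : α) (A : Set α) : Prop :=
  A ⊆ Iio ξ ∧ #A = ℵ_ (k : Ordinal.{u}) ∧ ∀ γ < ξ, #(A ∩ Iic γ : Set α) < ℵ_ (k : Ordinal.{u})

omit [WellFoundedLT α] in
lemma IsLadder.exists_gt {k : ℕ} {ξ : α} {A : Set α} (h : IsLadder k ξ A) {γ : α} (hγ : γ < ξ) :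
    ∃ a ∈ A, γ < a := by
  by_contra hcon
  push Not at hcon
  have : A ∩ Iic γ = A := by
    ext a
    simp only [mem_inter_iff, mem_Iic, and_iff_left_iff_imp]
    exact hcon a
  have h1 := h.2.2 γ hγ
  rw [this, h.2.1] at h1
  exact lt_irrefl _ h1

omit [WellFoundedLT α] in
lemma IsLadder.bounded {k : ℕ} {ξ : α} {A : Set α} (h : IsLadder k ξ A) {D : Set α}
    (hD : #D < ℵ_ (k : Ordinal.{u})) (hDξ : D ⊆ Iio ξ) : ∃ y ∈ A, ∀ d ∈ D, d < y := by
  by_contra hcon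
  push Not at hcon
  have hsub : A ⊆ ⋃ d : D, (A ∩ Iic (d : α)) := by
    intro a ha
    obtain ⟨d, hd, hle⟩ := hcon a ha
    simp only [mem_iUnion]
    exact ⟨⟨d, hd⟩, ha, hle⟩
  have h1 : #(⋃ d : D, (A ∩ Iic (d : α)) : Set α) < ℵ_ (k : Ordinal.{u}) := by
    rw [card_iUnion_lt_iff_forall_of_isRegular (regular_aleph k) hD]
    intro d
    exact h.2.2 d (hDξ d.2)
  have h2 := (mk_le_mk_of_subset hsub).trans_lt h1
  rw [h.2.1] at h2
  exact lt_irrefl _ h2

omit [WellFoundedLT α] in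
lemma IsLadder.refine {k : ℕ} {ξ : α} {A : Set α} (h : IsLadder k ξ A) {B : Set α}
    (hB : ∀ y < ξ, ∃ b ∈ B, y < b ∧ b < ξ) : ∃ A' ⊆ B, IsLadder k ξ A' := by
  classical
  have hB' : ∀ a : A, ∃ b ∈ B, (a : α) < b ∧ b < ξ := fun a => hB a (h.1 a.2)
  choose b hbB hab hbξ using hB'
  refine ⟨range b, ?_, ?_, ?_, ?_⟩
  · rintro _ ⟨a, rfl⟩
    exact hbB a
  · rintro _ ⟨a, rfl⟩
    exact hbξ a
  · apply le_antisymm
    · rw [← h.2.1]
      exact mk_range_le
    · by_contra hlt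
      push Not at hlt
      have hsub : A ⊆ ⋃ d : range b, (A ∩ Iic (d : α)) := by
        intro a ha
        simp only [mem_iUnion]
        exact ⟨⟨b ⟨a, ha⟩, mem_range_self _⟩, ha, (hab ⟨a, ha⟩).le⟩
      have h1 : #(⋃ d : range b, (A ∩ Iic (d : α)) : Set α) < ℵ_ (k : Ordinal.{u}) := by
        rw [card_iUnion_lt_iff_forall_of_isRegular (regular_aleph k) hlt]
        rintro ⟨_, a, rfl⟩
        exact h.2.2 _ (hbξ a)
      have h2 := (mk_le_mk_of_subset hsub).trans_lt h1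
      rw [h.2.1] at h2
      exact lt_irrefl _ h2
  · intro γ hγ
    have hsub : range b ∩ Iic γ ⊆ (fun a : A => b a) '' {a : A | (a : α) ≤ γ} := by
      rintro _ ⟨⟨a, rfl⟩, ha⟩
      exact ⟨a, (hab a).le.trans ha, rfl⟩
    refine (mk_le_mk_of_subset hsub).trans_lt (mk_image_le.trans_lt ?_)
    refine lt_of_le_of_lt ?_ (h.2.2 γ hγ)
    refine ⟨⟨fun a => ⟨(a : A), (a : A).2, a.2⟩, ?_⟩⟩
    rintro ⟨⟨a, ha⟩, ha'⟩ ⟨⟨c, hc⟩, hc'⟩ hac
    have hac' : a = c := congrArg Subtype.val hac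
    subst hac'
    rfl

variable (hα : #α = ℵ_ (Ordinal.omega0.{u} + 1)) (hseg : ∀ a : α, #(Iic a) ≤ ℵ_ Ordinal.omega0.{u})

include hα hseg in
omit [WellFoundedLT α] in
lemma bdd (s : Set α) (hs : #s ≤ ℵ_ Ordinal.omega0.{u}) : ∃ b, ∀ x ∈ s, x < b := by
  by_contra h
  push Not at h
  have hsub : (univ : Set α) ⊆ ⋃ x : s, Iic (x : α) := by
    intro b _
    obtain ⟨x, hx, hbx⟩ := h b
    simp only [mem_iUnion]
    exact ⟨⟨x, hx⟩, hbx⟩
  have h1 : #(⋃ x : s, Iic (x : α) : Set α) ≤ ℵ_ Ordinal.omega0.{u} :=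
    mk_iUnion_le_of (aleph0_le_aleph _) hs (fun x => hseg x)
  have h2 := (mk_le_mk_of_subset hsub).trans h1
  rw [mk_univ, hα, aleph_le_aleph] at h2
  exact absurd h2 (not_le.mpr (lt_add_one _))

include hα hseg in
/-- closure points of cofinality `ω_k` -/
lemma exists_closed_ladder (k : ℕ) (G : α → α) :
    ∃ ξ A, IsLadder k ξ A ∧ ∀ y < ξ, G y < ξ := by
  let ι : Type u := (ℵ_ (k : Ordinal.{u})).ord.ToType
  have : NoMaxOrder ι := noMaxOrder (aleph0_le_aleph _)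
  have hι : #ι = ℵ_ (k : Ordinal.{u}) := mk_ord_toType _
  have hιle : #ι ≤ ℵ_ Ordinal.omega0.{u} := by rw [hι]; exact (aleph_nat_lt_omega k).le
  have : Nonempty ι := mk_ne_zero_iff.mp (by rw [hι]; exact (aleph_pos _).ne')
  have : Nonempty α := mk_ne_zero_iff.mp (by rw [hα]; exact (aleph_pos _).ne')
  obtain ⟨x, hx⟩ := exists_rec (ι := ι) (β := α)
    (fun i F s => ∀ j < i, ∀ y ≤ F j, y < s ∧ G y < s)
    (by
      intro i F F' s hFF' h j hj y hy
      exact h j hj y (by rw [hFF' j hj]; exact hy))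
    (by
      intro i F _
      obtain ⟨b, hb⟩ := bdd hα hseg (⋃ j : ι, (Iic (F j) ∪ G '' Iic (F j)))
        (mk_iUnion_le_of (aleph0_le_aleph _) hιle (fun j =>
          (mk_union_le _ _).trans (add_le_of_le (aleph0_le_aleph _) (hseg _)
            (mk_image_le.trans (hseg _)))))
      refine ⟨b, fun j _ y hy => ⟨hb y ?_, hb (G y) ?_⟩⟩
      · simp only [mem_iUnion]
        exact ⟨j, Or.inl hy⟩
      · simp only [mem_iUnion]
        exact ⟨j, Or.inr ⟨y, hy, rfl⟩⟩)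
  have hmono : ∀ j i, j < i → x j < x i := fun j i hji => (hx i j hji (x j) le_rfl).1
  -- the least strict upper bound
  have hne : ({b | ∀ i, x i < b} : Set α).Nonempty := by
    obtain ⟨b, hb⟩ := bdd hα hseg (range x) (mk_range_le.trans hιle)
    exact ⟨b, fun i => hb _ (mem_range_self i)⟩
  obtain ⟨ξ, hξ, hξmin⟩ := (wellFounded_lt (α := α)).has_min _ hne
  have hcof : ∀ y < ξ, ∃ i, y ≤ x i := by
    intro y hy
    by_contra hcon
    push Not at hcon
    exact hξmin y hcon hy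
  refine ⟨ξ, range x, ⟨?_, ?_, ?_⟩, ?_⟩
  · rintro _ ⟨i, rfl⟩
    exact hξ i
  · rw [mk_range_eq, hι]
    intro i j hij
    rcases lt_trichotomy i j with h | h | h
    · exact absurd hij (hmono _ _ h).ne
    · exact h
    · exact absurd hij (hmono _ _ h).ne'
  · intro γ hγ
    obtain ⟨i, hi⟩ := hcof γ hγ
    obtain ⟨i', hi'⟩ := exists_gt i
    have hsub : range x ∩ Iic γ ⊆ x '' Iio i' := by
      rintro _ ⟨⟨j, rfl⟩, hj⟩
      refine ⟨j, ?_, rfl⟩
      by_contra hcon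
      simp only [mem_Iio, not_lt] at hcon
      have h1 : x i < x j := (hmono _ _ hi').trans_le (by
        rcases hcon.eq_or_lt with h | h
        · rw [h]
        · exact (hmono _ _ h).le)
      exact absurd (hj : x j ≤ γ) (not_le.mpr (lt_of_le_of_lt hi h1))
    refine (mk_le_mk_of_subset hsub).trans_lt (mk_image_le.trans_lt ?_)
    have := mk_Iio_lt i' (by simp [ι])
    rwa [hι] at this
  · intro y hy
    obtain ⟨i, hi⟩ := hcof y hy
    obtain ⟨i', hi'⟩ := exists_gt i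
    exact (hx i' i hi' y hi).2.trans (hξ i')

/-! ### Diamond (Shelah) on the points of cofinality `ω_k`, `k ≥ 1` -/

include hα hseg in
omit [WellFoundedLT α] in
lemma exists_enum (hpow : (2 : Cardinal.{u}) ^ ℵ_ Ordinal.omega0.{u} = ℵ_ (Ordinal.omega0.{u} + 1))
    (Q : Type u) (hQ : #Q ≤ ℵ_ Ordinal.omega0.{u}) (x : α) :
    ∃ H : α → Q → Set α, ∀ Z : Q → Set α, ∃ β, ∀ q, H β q ∩ Iio x = Z q ∩ Iio x := by
  have hx : #(Iio x) ≤ ℵ_ Ordinal.omega0.{u} :=
    (mk_le_mk_of_subset Iio_subset_Iic_self).trans (hseg x)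
  have hcard : #(Q → Set (Iio x)) ≤ #α := by
    rw [← power_def, mk_set, ← power_mul, hα, ← hpow]
    apply power_le_power_left two_ne_zero
    calc #(Iio x) * #Q ≤ ℵ_ Ordinal.omega0.{u} * ℵ_ Ordinal.omega0.{u} := mul_le_mul' hx hQ
      _ = _ := mul_eq_self (aleph0_le_aleph _)
  obtain ⟨j⟩ := (Cardinal.le_def _ _).mp hcard
  refine ⟨fun β q => Subtype.val '' (Function.invFun j β q), fun Z => ?_⟩
  refine ⟨j (fun q => Subtype.val ⁻¹' Z q), fun q => ?_⟩
  show Subtype.val '' (Function.invFun j (j (fun q => Subtype.val ⁻¹' Z q)) q) ∩ Iio x = _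
  rw [Function.leftInverse_invFun j.injective]
  ext z
  simp only [mem_inter_iff, mem_image, mem_preimage, Subtype.exists, mem_Iio]
  constructor
  · rintro ⟨⟨a, ha, haZ, rfl⟩, -⟩
    exact ⟨haZ, ha⟩
  · rintro ⟨hz, hzx⟩
    exact ⟨⟨z, hzx, hz, rfl⟩, hzx⟩

include hα hseg in
/-- Shelah's theorem: `2 ^ ℵ_ω = ℵ_{ω+1}` implies diamond on the points of cofinality `ω_k`. -/
lemma diamond (hpow : (2 : Cardinal.{u}) ^ ℵ_ Ordinal.omega0.{u} = ℵ_ (Ordinal.omega0.{u} + 1))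
    (k : ℕ) (hk : 1 ≤ k) :
    ∃ B : α → Set α, ∀ (Z : Set α) (g : α → α), ∃ ξ A, IsLadder k ξ A ∧ (∀ y < ξ, g y < ξ) ∧
      Z ∩ Iio ξ = B ξ := by
  classical
  by_contra hcon
  push Not at hcon
  choose Zf gf hf using hcon
  let Λ : Type u := (ℵ_ Ordinal.omega0.{u}).ord.ToType
  have hΛ : #Λ = ℵ_ Ordinal.omega0.{u} := mk_ord_toType _
  have hQ : #(ℕ × Λ) ≤ ℵ_ Ordinal.omega0.{u} := by
    rw [mk_prod, hΛ]
    simp only [mk_nat, lift_aleph0, lift_uzero]
    exact (mul_le_mul' (aleph0_le_aleph _) le_rfl).trans (mul_eq_self (aleph0_le_aleph _)).le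
  choose H hH using exists_enum hα hseg hpow (ℕ × Λ) hQ
  have hfil := fun ξ : α => exists_filtration (Iio ξ)
    ((mk_le_mk_of_subset Iio_subset_Iic_self).trans (hseg ξ))
  choose D hDmono hDunion hDcard using hfil
  let V : ℕ → Λ → (Λ → Set α) → α → Set (α × α) := fun n τ W ξ =>
    {q | q.1 ∈ D ξ n ∧ q.2 ∈ D ξ n ∧ ∀ τ' < τ, H q.1 q.2 (n, τ') ∩ Iio q.1 = W τ' ∩ Iio q.1}
  let Bd : ℕ → Λ → (Λ → Set α) → α → Set α := fun n τ W ξ =>
    {z | ∃ q ∈ V n τ W ξ, z ∈ H q.1 q.2 (n, τ) ∧ z < q.1}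
  have hW : ∀ n, ∃ W : Λ → Set α, ∀ τ, W τ = Zf (Bd n τ W) := by
    intro n
    apply exists_rec (P := fun τ F s => s = Zf (Bd n τ F))
    · intro τ F F' s hFF' hs
      rw [hs]
      congr 1
      ext ξ z
      simp only [Bd, V, mem_ofPred_eq]
      constructor
      · rintro ⟨q, ⟨h1, h2, h3⟩, h4⟩
        exact ⟨q, ⟨h1, h2, fun τ' hτ' => by rw [h3 τ' hτ', hFF' τ' hτ']⟩, h4⟩
      · rintro ⟨q, ⟨h1, h2, h3⟩, h4⟩
        exact ⟨q, ⟨h1, h2, fun τ' hτ' => by rw [h3 τ' hτ', hFF' τ' hτ']⟩, h4⟩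
    · intro τ F _
      exact ⟨_, rfl⟩
  choose W hW using hW
  -- indices of the restrictions of the whole family
  have hidx : ∀ x : α, ∃ β, ∀ q : ℕ × Λ, H x β q ∩ Iio x = W q.1 q.2 ∩ Iio x :=
    fun x => hH x (fun q => W q.1 q.2)
  choose hh hhh using hidx
  -- one function dominating all the clubs
  have hG : ∀ x : α, ∃ b, (∀ q : ℕ × Λ, gf (Bd q.1 q.2 (W q.1)) x < b) ∧ hh x < b := by
    intro x
    obtain ⟨b, hb⟩ := bdd hα hseg
      (range (fun q : ℕ × Λ => gf (Bd q.1 q.2 (W q.1)) x) ∪ {hh x})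
      ((mk_union_le _ _).trans (add_le_of_le (aleph0_le_aleph _) (mk_range_le.trans hQ)
        (by rw [mk_singleton]; exact one_le_aleph0.trans (aleph0_le_aleph _))))
    exact ⟨b, fun q => hb _ (Or.inl (mem_range_self q)), hb _ (Or.inr rfl)⟩
  choose G hG1 hG2 using hG
  obtain ⟨ξ, A, hA, hclosed⟩ := exists_closed_ladder hα hseg k G
  have hne : ∀ n τ, W n τ ∩ Iio ξ ≠ Bd n τ (W n) ξ := by
    intro n τ
    have h1 := hf (Bd n τ (W n)) ξ A hA (fun y hy => (hG1 y (n, τ)).trans (hclosed y hy))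
    rwa [← hW n τ] at h1
  have hhξ : ∀ x < ξ, hh x < ξ := fun x hx => (hG2 x).trans (hclosed x hx)
  have hmemD : ∀ x < ξ, ∃ n, x ∈ D ξ n := by
    intro x hx
    have : x ∈ ⋃ n, D ξ n := by rw [hDunion ξ]; exact hx
    simpa using this
  -- pigeonhole
  have hn : ∃ n, ∀ y < ξ, ∃ x, y < x ∧ x < ξ ∧ x ∈ D ξ n ∧ hh x ∈ D ξ n := by
    by_contra hcon
    push Not at hcon
    choose y hyξ hy using hcon
    have hcount : #(range y) < ℵ_ (k : Ordinal.{u}) := by
      have h1 : #(range y) ≤ ℵ₀ := by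
        have := mk_range_le_lift (f := y)
        simpa using this
      refine h1.trans_lt ?_
      rw [aleph0_lt_aleph]
      exact_mod_cast hk
    obtain ⟨x, hxA, hx⟩ := hA.bounded hcount (by rintro _ ⟨n, rfl⟩; exact hyξ n)
    have hxξ : x < ξ := hA.1 hxA
    obtain ⟨n1, hn1⟩ := hmemD x hxξ
    obtain ⟨n2, hn2⟩ := hmemD (hh x) (hhξ x hxξ)
    exact hy (max n1 n2) x (hx _ (mem_range_self _)) hxξ
      (hDmono ξ _ _ (le_max_left _ _) hn1) (hDmono ξ _ _ (le_max_right _ _) hn2)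
  obtain ⟨n, hn⟩ := hn
  have hpair : ∀ τ : Λ, ∃ q ∈ V n τ (W n) ξ,
      H q.1 q.2 (n, τ) ∩ Iio q.1 ≠ W n τ ∩ Iio q.1 := by
    intro τ
    by_contra hcon
    push Not at hcon
    apply hne n τ
    ext z
    constructor
    · rintro ⟨hz, hzξ⟩
      obtain ⟨x, hzx, hxξ, hxD, hhD⟩ := hn z hzξ
      refine ⟨(x, hh x), ⟨hxD, hhD, fun τ' _ => hhh x (n, τ')⟩, ?_, hzx⟩
      have h1 : z ∈ W n τ ∩ Iio x := ⟨hz, hzx⟩
      rw [← hhh x (n, τ)] at h1
      exact h1.1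
    · rintro ⟨q, hq, hz, hzq⟩
      have h1 : z ∈ H q.1 q.2 (n, τ) ∩ Iio q.1 := ⟨hz, hzq⟩
      rw [hcon q hq] at h1
      have hqξ : q.1 < ξ := by
        have : q.1 ∈ ⋃ n, D ξ n := mem_iUnion.mpr ⟨n, hq.1⟩
        rw [hDunion ξ] at this
        exact this
      exact ⟨h1.1, lt_trans hzq hqξ⟩
  choose q hqV hqne using hpair
  have hqinj : Function.Injective q := by
    have key : ∀ τ' τ, τ' < τ → q τ' ≠ q τ := by
      intro τ' τ hlt heq
      apply hqne τ'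
      rw [heq]
      exact (hqV τ).2.2 τ' hlt
    intro τ τ' h
    rcases lt_trichotomy τ τ' with h1 | h1 | h1
    · exact absurd h (key _ _ h1)
    · exact h1
    · exact absurd h.symm (key _ _ h1)
  have h1 : #Λ ≤ #(D ξ n) * #(D ξ n) := by
    have h2 : #Λ ≤ #(D ξ n × D ξ n) := by
      refine ⟨⟨fun τ => (⟨(q τ).1, (hqV τ).1⟩, ⟨(q τ).2, (hqV τ).2.1⟩), ?_⟩⟩
      intro τ τ' h
      apply hqinj
      simp only [Prod.mk.injEq, Subtype.mk.injEq] at h
      exact Prod.ext h.1 h.2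
    simpa using h2
  have h3 : #Λ ≤ ℵ_ (n : Ordinal.{u}) :=
    h1.trans ((mul_le_mul' (hDcard ξ n) (hDcard ξ n)).trans (mul_eq_self (aleph0_le_aleph _)).le)
  rw [hΛ] at h3
  exact absurd h3 (not_le.mpr (aleph_nat_lt_omega n))

include hα hseg in
/-- guessing subsets of unbounded sets by ladders -/
lemma guessing (hpow : (2 : Cardinal.{u}) ^ ℵ_ Ordinal.omega0.{u} = ℵ_ (Ordinal.omega0.{u} + 1))
    (k : ℕ) (hk : 1 ≤ k) :
    ∃ A : α → Set α, ∀ Y : Set α, (∀ x, ∃ y ∈ Y, x < y) → ∃ ξ, IsLadder k ξ (A ξ) ∧ A ξ ⊆ Y := by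
  classical
  obtain ⟨B, hB⟩ := diamond hα hseg hpow k hk
  refine ⟨fun ξ => if h : ∃ A' ⊆ B ξ, IsLadder k ξ A' then h.choose else ∅, ?_⟩
  intro Y hY
  choose g hgY hg using hY
  obtain ⟨ξ, A, hA, hcl, hBξ⟩ := hB Y g
  have h : ∃ A' ⊆ B ξ, IsLadder k ξ A' := by
    apply hA.refine
    intro y hy
    exact ⟨g y, by rw [← hBξ]; exact ⟨hgY y, hcl y hy⟩, hg y, hcl y hy⟩
  refine ⟨ξ, ?_, ?_⟩
  · simp only [dif_pos h]
    exact h.choose_spec.2
  · simp only [dif_pos h]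
    exact h.choose_spec.1.trans (by rw [← hBξ]; exact inter_subset_left)

/-! ### The set mapping -/

/-- limit points of `D` -/
def lim (D : Set α) : Set α := {η | ∀ γ < η, ∃ d ∈ D, γ < d ∧ d < η}

lemma mk_lim_le (D : Set α) (c : Cardinal.{u}) (hc : ℵ₀ ≤ c) (hD : #D ≤ c) : #(lim D) ≤ c := by
  classical
  -- `η ↦` least element of `D` that is `≥ η`, if any
  have hle : #(lim D) ≤ #(Option D) := by
    have hmin : ∀ η : α, (∃ d ∈ D, η ≤ d) → ∃ d ∈ D, η ≤ d ∧ ∀ e ∈ D, η ≤ e → d ≤ e := by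
      intro η hη
      obtain ⟨d, ⟨hd, hηd⟩, hmin⟩ := (wellFounded_lt (α := α)).has_min {d | d ∈ D ∧ η ≤ d}
        (by obtain ⟨d, h1, h2⟩ := hη; exact ⟨d, h1, h2⟩)
      exact ⟨d, hd, hηd, fun e he hηe => not_lt.mp (hmin e ⟨he, hηe⟩)⟩
    let F : lim D → Option D := fun η =>
      if h : ∃ d ∈ D, (η : α) ≤ d then some ⟨(hmin η h).choose, (hmin η h).choose_spec.1⟩ else none
    refine ⟨⟨F, ?_⟩⟩
    have key : ∀ η η' : lim D, (η : α) < η' → F η ≠ F η' := by
      intro η η' hlt heq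
      obtain ⟨d, hd, hηd, hdη'⟩ := η'.2 η hlt
      have h1 : ∃ d ∈ D, (η : α) ≤ d := ⟨d, hd, hηd.le⟩
      have hF1 : F η = some ⟨(hmin η h1).choose, (hmin η h1).choose_spec.1⟩ := dif_pos h1
      by_cases h2 : ∃ d ∈ D, (η' : α) ≤ d
      · have hF2 : F η' = some ⟨(hmin η' h2).choose, (hmin η' h2).choose_spec.1⟩ := dif_pos h2
        rw [hF1, hF2] at heq
        simp only [Option.some.injEq, Subtype.mk.injEq] at heq
        have h3 := (hmin η h1).choose_spec.2.2 d hd hηd.le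
        have h4 := (hmin η' h2).choose_spec.2.1
        rw [← heq] at h4
        exact absurd (h4.trans h3) (not_le.mpr hdη')
      · have hF2 : F η' = none := dif_neg h2
        rw [hF1, hF2] at heq
        exact absurd heq (by simp)
    intro η η' h
    rcases lt_trichotomy (η : α) η' with h1 | h1 | h1
    · exact absurd h (key _ _ h1)
    · exact Subtype.ext h1
    · exact absurd h.symm (key _ _ h1)
  refine hle.trans ?_
  rw [mk_option]
  exact add_le_of_le hc hD (one_le_aleph0.trans hc)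

/-- The requirements on the value `s` of the set mapping at `δ`, given the earlier values `F`;
`A l` guesses with ladders of type `ω_l`, and `D δ n` is a filtration of `Iio δ`. -/
structure Req (A : ℕ → α → Set α) (D : α → ℕ → Set α) (δ : α) (F : α → Set α) (s : Set α) :
    Prop where
  sub : s ⊆ Iio δ
  almost : ∀ β < δ, #(s ∩ F β : Set α) < ℵ_ Ordinal.omega0.{u}
  thin : ∀ l : ℕ, 1 ≤ l → ∀ η, IsLadder l η (A l η) → #(s ∩ A l η : Set α) < ℵ_ (l : Ordinal.{u})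
  hit : ∀ n : ℕ, ∀ ξ ∈ D δ n, IsLadder (n + 1) ξ (A (n + 1) ξ) → (s ∩ A (n + 1) ξ).Nonempty

lemma step (A : ℕ → α → Set α) (D : α → ℕ → Set α)
    (hDmono : ∀ δ m n, m ≤ n → D δ m ⊆ D δ n) (hDunion : ∀ δ, (⋃ n, D δ n) = Iio δ)
    (hDcard : ∀ δ (n : ℕ), #(D δ n) ≤ ℵ_ (n : Ordinal.{u}))
    (δ : α) (F : α → Set α)
    (hF : ∀ β < δ, ∀ l : ℕ, 1 ≤ l → ∀ η, IsLadder l η (A l η) →
      #(F β ∩ A l η : Set α) < ℵ_ (l : Ordinal.{u})) :
    ∃ s, Req A D δ F s := by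
  classical
  have hDsub : ∀ n, D δ n ⊆ Iio δ := fun n => by
    rw [← hDunion δ]; exact subset_iUnion (D δ) n
  -- the choice of a single point
  have hchoice : ∀ (n : ℕ) (ξ : α), ξ ∈ D δ n → IsLadder (n + 1) ξ (A (n + 1) ξ) →
      ∃ a ∈ A (n + 1) ξ, (∀ β ∈ D δ n, a ∉ F β) ∧
        (∀ l : ℕ, 1 ≤ l → l ≤ n → ∀ η ∈ lim (D δ n), IsLadder l η (A l η) → a ∉ A l η) ∧
        (∀ d ∈ D δ n, d < ξ → d < a) := by
    intro n ξ hξ hlad
    by_contra hcon
    push Not at hcon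
    obtain ⟨y, hyA, hy⟩ := hlad.bounded (D := D δ n ∩ Iio ξ)
      (lt_aleph_succ_nat.mpr ((mk_le_mk_of_subset inter_subset_left).trans (hDcard δ n)))
      inter_subset_right
    let U1 : Set α := ⋃ β ∈ D δ n, (F β ∩ A (n + 1) ξ)
    let U2 : Set α := ⋃ η ∈ lim (D δ n), ⋃ l : ULift.{u} ℕ,
      (if 1 ≤ l.down ∧ l.down ≤ n ∧ IsLadder l.down η (A l.down η) then A l.down η else ∅)
    let U3 : Set α := A (n + 1) ξ ∩ Iic y
    have hsub : A (n + 1) ξ ⊆ U1 ∪ U2 ∪ U3 := by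
      intro a ha
      by_contra hau
      simp only [U1, U2, U3, mem_union, mem_iUnion, mem_inter_iff, mem_Iic, not_or, not_exists,
        not_and, exists_prop, not_le] at hau
      obtain ⟨⟨h1, h2⟩, h3⟩ := hau
      obtain ⟨d, hd, hdξ, had⟩ := hcon a ha (fun β hβ haF => h1 β hβ haF ha)
        (by
          intro l hl1 hln η hη hL haA
          apply h2 η hη ⟨l⟩
          rw [if_pos ⟨hl1, hln, hL⟩]
          exact haA)
      exact absurd (had.trans_lt (hy d ⟨hd, hdξ⟩)) (not_lt.mpr (h3 ha).le)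
    have hU1 : #U1 ≤ ℵ_ (n : Ordinal.{u}) := by
      apply mk_biUnion_le_of (aleph0_le_aleph _) (hDcard δ n)
      intro β hβ
      exact lt_aleph_succ_nat.mp (hF β (hDsub n hβ) (n + 1) (by omega) ξ hlad)
    have hU2 : #U2 ≤ ℵ_ (n : Ordinal.{u}) := by
      apply mk_biUnion_le_of (aleph0_le_aleph _)
        (mk_lim_le _ _ (aleph0_le_aleph _) (hDcard δ n))
      intro η _
      apply mk_iUnion_le_of (aleph0_le_aleph _)
      · simp
      · rintro ⟨l⟩
        split_ifs with h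
        · rw [h.2.2.2.1]
          exact aleph_nat_mono h.2.1
        · simp
    have hU3 : #U3 ≤ ℵ_ (n : Ordinal.{u}) := lt_aleph_succ_nat.mp (hlad.2.2 y (hlad.1 hyA))
    have h4 : #(A (n + 1) ξ) ≤ ℵ_ (n : Ordinal.{u}) := by
      refine (mk_le_mk_of_subset hsub).trans ((mk_union_le _ _).trans ?_)
      exact add_le_of_le (aleph0_le_aleph _) ((mk_union_le _ _).trans
        (add_le_of_le (aleph0_le_aleph _) hU1 hU2)) hU3
    rw [hlad.2.1] at h4
    exact absurd h4 (not_le.mpr (lt_aleph_succ_nat.mpr le_rfl))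
  choose! a haA haF haL haD using hchoice
  let I : ℕ → Set α := fun n => {ξ | ξ ∈ D δ n ∧ IsLadder (n + 1) ξ (A (n + 1) ξ)}
  have hIcard : ∀ n, #(I n) ≤ ℵ_ (n : Ordinal.{u}) := fun n =>
    (mk_le_mk_of_subset (fun ξ hξ => hξ.1)).trans (hDcard δ n)
  refine ⟨⋃ n : ℕ, a n '' I n, ?_, ?_, ?_, ?_⟩
  · intro z hz
    simp only [mem_iUnion, mem_image] at hz
    obtain ⟨n, ξ, hξ, rfl⟩ := hz
    exact lt_trans (hξ.2.1 (haA n ξ hξ.1 hξ.2)) (hDsub n hξ.1)
  · intro β hβ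
    have hm : ∃ m, β ∈ D δ m := by
      have : β ∈ ⋃ n, D δ n := by rw [hDunion]; exact hβ
      simpa using this
    obtain ⟨m, hm⟩ := hm
    refine lt_of_le_of_lt ?_ (aleph_nat_lt_omega m)
    have hsub : (⋃ n : ℕ, a n '' I n) ∩ F β ⊆
        ⋃ n : ULift.{u} ℕ, (if n.down < m then a n.down '' I n.down else ∅) := by
      rintro z ⟨hz, hzF⟩
      simp only [mem_iUnion, mem_image] at hz ⊢
      obtain ⟨n, ξ, hξ, rfl⟩ := hz
      refine ⟨⟨n⟩, ?_⟩
      by_cases hnm : n < m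
      · rw [if_pos hnm]
        exact ⟨ξ, hξ, rfl⟩
      · exfalso
        exact haF n ξ hξ.1 hξ.2 β (hDmono δ m n (not_lt.mp hnm) hm) hzF
    refine (mk_le_mk_of_subset hsub).trans (mk_iUnion_le_of (aleph0_le_aleph _) ?_ ?_)
    · simp
    · rintro ⟨n⟩
      split_ifs with h
      · exact mk_image_le.trans ((hIcard n).trans (aleph_nat_mono (le_of_lt h)))
      · simp
  · intro l hl η hη
    by_contra hcon
    push Not at hcon
    have hex : ∃ n, ℵ_ (l : Ordinal.{u}) ≤ #((a n '' I n) ∩ A l η : Set α) := by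
      by_contra hall
      push Not at hall
      have h1 : #(⋃ n : ULift.{u} ℕ, ((a n.down '' I n.down) ∩ A l η) : Set α) <
          ℵ_ (l : Ordinal.{u}) := by
        rw [card_iUnion_lt_iff_forall_of_isRegular (regular_aleph l)]
        · rintro ⟨n⟩
          exact hall n
        · simp only [mk_uLift, mk_nat, lift_aleph0]
          rw [aleph0_lt_aleph]
          exact_mod_cast hl
      have h2 : (⋃ n : ℕ, a n '' I n) ∩ A l η ⊆
          ⋃ n : ULift.{u} ℕ, ((a n.down '' I n.down) ∩ A l η) := by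
        rintro z ⟨hz, hzA⟩
        simp only [mem_iUnion] at hz ⊢
        obtain ⟨n, hn⟩ := hz
        exact ⟨⟨n⟩, hn, hzA⟩
      exact absurd ((mk_le_mk_of_subset h2).trans_lt h1) (not_lt.mpr hcon)
    obtain ⟨n, hn⟩ := hex
    have hln : l ≤ n := by
      have h1 : ℵ_ (l : Ordinal.{u}) ≤ ℵ_ (n : Ordinal.{u}) :=
        hn.trans ((mk_le_mk_of_subset inter_subset_left).trans (mk_image_le.trans (hIcard n)))
      rw [aleph_le_aleph] at h1
      exact_mod_cast h1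
    -- there are chosen points in `A l η` above any given point below `η`
    have habove : ∀ γ < η, ∃ ξ ∈ I n, a n ξ ∈ A l η ∧ γ < a n ξ := by
      intro γ hγ
      by_contra hcon2
      push Not at hcon2
      have hsub : (a n '' I n) ∩ A l η ⊆ A l η ∩ Iic γ := by
        rintro _ ⟨⟨ξ, hξ, rfl⟩, hzA⟩
        exact ⟨hzA, hcon2 ξ hξ hzA⟩
      exact absurd ((mk_le_mk_of_subset hsub).trans_lt (hη.2.2 γ hγ)) (not_lt.mpr hn)
    have hlim : η ∈ lim (D δ n) := by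
      intro γ hγ
      obtain ⟨ξ, hξ, hξA, hγξ⟩ := habove γ hγ
      obtain ⟨ξ', hξ', hξ'A, hlt⟩ := habove (a n ξ) (hη.1 hξA)
      have hξa : a n ξ < ξ := hξ.2.1 (haA n ξ hξ.1 hξ.2)
      have hξ'a : a n ξ' < ξ' := hξ'.2.1 (haA n ξ' hξ'.1 hξ'.2)
      have hξξ' : ξ < ξ' := by
        by_contra hle
        rcases (not_lt.mp hle).eq_or_lt with h | h
        · rw [h] at hlt
          exact lt_irrefl _ hlt
        · have h1 := haD n ξ hξ.1 hξ.2 ξ' hξ'.1 h
          exact lt_irrefl _ (h1.trans (hlt.trans hξ'a))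
      have h1 : ξ < a n ξ' := haD n ξ' hξ'.1 hξ'.2 ξ hξ.1 hξξ'
      exact ⟨ξ, hξ.1, hγξ.trans hξa, h1.trans (hη.1 hξ'A)⟩
    have hpos : ((a n '' I n) ∩ A l η).Nonempty := by
      rw [nonempty_iff_ne_empty]
      intro h0
      rw [h0, mk_eq_zero] at hn
      exact absurd hn (not_le.mpr (aleph_pos _))
    obtain ⟨_, ⟨ξ, hξ, rfl⟩, hzA⟩ := hpos
    exact haL n ξ hξ.1 hξ.2 l hl hln η hlim hη hzA
  · intro n ξ hξ hlad
    exact ⟨a n ξ, mem_iUnion.mpr ⟨n, ξ, ⟨hξ, hlad⟩, rfl⟩, haA n ξ hξ hlad⟩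

include hα hseg in
lemma main (hpow : (2 : Cardinal.{u}) ^ ℵ_ Ordinal.omega0.{u} = ℵ_ (Ordinal.omega0.{u} + 1)) :
    ∃ f : α → Set α, (∀ x, x ∉ f x) ∧ (∀ x, #(f x) ≤ ℵ_ Ordinal.omega0.{u}) ∧
      (∀ x y, x ≠ y → #(f x ∩ f y : Set α) < ℵ_ Ordinal.omega0.{u}) ∧
      ∀ Y : Set α, (∀ x ∈ Y, ∀ y ∈ Y, x ≠ y → y ∉ f x) → #Y ≤ ℵ_ Ordinal.omega0.{u} := by
  classical
  have hne : Nonempty α := mk_ne_zero_iff.mp (by rw [hα]; exact (aleph_pos _).ne')
  -- the guessing ladders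
  have hg := fun k : ℕ => guessing hα hseg hpow (k + 1) (Nat.le_add_left 1 k)
  choose A' hA' using hg
  let A : ℕ → α → Set α := fun k => if k = 0 then fun _ => ∅ else A' (k - 1)
  have hA : ∀ k : ℕ, ∀ Y : Set α, (∀ x, ∃ y ∈ Y, x < y) →
      ∃ ξ, IsLadder (k + 1) ξ (A (k + 1) ξ) ∧ A (k + 1) ξ ⊆ Y := fun k Y hY => by
    simpa [A] using hA' k Y hY
  -- a surjection onto the sequences
  have hseq : ∃ e : α → (ℕ → α), Function.Surjective e := by
    have hcard : #(ℕ → α) ≤ #α := by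
      have h1 : #(ℕ → α) = (#α) ^ (ℵ₀ : Cardinal.{u}) := by simp
      rw [h1, hα, ← hpow, ← power_mul]
      apply power_le_power_left two_ne_zero
      exact (mul_le_mul' le_rfl (aleph0_le_aleph _)).trans (mul_eq_self (aleph0_le_aleph _)).le
    obtain ⟨j⟩ := (Cardinal.le_def _ _).mp hcard
    exact ⟨Function.invFun j, Function.invFun_surjective j.injective⟩
  obtain ⟨e, he⟩ := hseq
  have hfil := fun δ : α => exists_filtration (Iio δ)
    ((mk_le_mk_of_subset Iio_subset_Iic_self).trans (hseg δ))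
  choose D₀ hmono hunion hcard using hfil
  let D : α → ℕ → Set α := fun δ n => D₀ δ n ∪ ((⋃ ζ ∈ D₀ δ n, range (e ζ)) ∩ Iio δ)
  have hDmono : ∀ δ m n, m ≤ n → D δ m ⊆ D δ n := by
    intro δ m n hmn
    apply union_subset_union (hmono δ m n hmn)
    apply inter_subset_inter_left
    exact biUnion_subset_biUnion_left (hmono δ m n hmn)
  have hDunion : ∀ δ, (⋃ n, D δ n) = Iio δ := by
    intro δ
    apply subset_antisymm
    · apply iUnion_subset
      intro n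
      apply union_subset
      · rw [← hunion δ]; exact subset_iUnion (D₀ δ) n
      · exact inter_subset_right
    · rw [← hunion δ]
      exact iUnion_mono (fun n => subset_union_left)
  have hDcard : ∀ δ (n : ℕ), #(D δ n) ≤ ℵ_ (n : Ordinal.{u}) := by
    intro δ n
    refine (mk_union_le _ _).trans (add_le_of_le (aleph0_le_aleph _) (hcard δ n) ?_)
    refine (mk_le_mk_of_subset inter_subset_left).trans
      (mk_biUnion_le_of (aleph0_le_aleph _) (hcard δ n) ?_)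
    intro ζ _
    have h1 : #(range (e ζ)) ≤ ℵ₀ := by
      have := mk_range_le_lift (f := e ζ)
      simpa using this
    exact h1.trans (aleph0_le_aleph _)
  obtain ⟨f, hf⟩ := exists_rec (ι := α) (β := Set α) (fun δ F s => Req A D δ F s)
    (by
      intro δ F G s hFG h
      exact ⟨h.sub, fun β hβ => by rw [← hFG β hβ]; exact h.almost β hβ, h.thin, h.hit⟩)
    (by
      intro δ F hF
      exact step A D hDmono hDunion hDcard δ F (fun β hβ => (hF β hβ).thin))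
  refine ⟨f, ?_, ?_, ?_, ?_⟩
  · intro x hx
    exact lt_irrefl x ((hf x).sub hx)
  · intro x
    exact (mk_le_mk_of_subset (hf x).sub).trans
      ((mk_le_mk_of_subset Iio_subset_Iic_self).trans (hseg x))
  · intro x y hxy
    rcases lt_or_gt_of_ne hxy with h | h
    · rw [inter_comm]
      exact (hf y).almost x h
    · exact (hf x).almost y h
  · intro Y hY
    by_contra hbig
    have hunb : ∀ x, ∃ y ∈ Y, x < y := by
      intro x
      by_contra hcon
      push Not at hcon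
      exact hbig ((mk_le_mk_of_subset (fun y hy => hcon y hy)).trans (hseg x))
    have hξ := fun k : ℕ => hA k Y hunb
    choose ξ hlad hξY using hξ
    let s : ℕ → α := fun k => ξ (k - 1)
    obtain ⟨ζ, hζ⟩ := he s
    obtain ⟨b, hb⟩ := bdd hα hseg (range ξ ∪ {ζ}) (by
      refine (mk_union_le _ _).trans (add_le_of_le (aleph0_le_aleph _) ?_ ?_)
      · have h1 : #(range ξ) ≤ ℵ₀ := by
          have := mk_range_le_lift (f := ξ)
          simpa using this
        exact h1.trans (aleph0_le_aleph _)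
      · rw [mk_singleton]; exact one_le_aleph0.trans (aleph0_le_aleph _))
    obtain ⟨δ, hδY, hbδ⟩ := hunb b
    have hζδ : ζ < δ := (hb ζ (Or.inr rfl)).trans hbδ
    have hξδ : ∀ k, ξ k < δ := fun k => (hb _ (Or.inl (mem_range_self k))).trans hbδ
    have hn : ∃ n, ζ ∈ D₀ δ n := by
      have : ζ ∈ ⋃ n, D₀ δ n := by rw [hunion δ]; exact hζδ
      simpa using this
    obtain ⟨n, hn⟩ := hn
    have hmem : ξ n ∈ D δ n := by
      refine Or.inr ⟨?_, hξδ n⟩
      simp only [mem_iUnion]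
      refine ⟨ζ, hn, n + 1, ?_⟩
      rw [hζ]
      simp [s]
    obtain ⟨a, haf, haA⟩ := (hf δ).hit n (ξ n) hmem (hlad n)
    have haY : a ∈ Y := hξY n haA
    have haδ : a < δ := (hf δ).sub haf
    exact hY δ hδY a haY haδ.ne' haf

end ladders

/-- Assume `2 ^ ℵ_ω = ℵ_{ω+1}` (an instance of GCH). On every set `α` of size `ℵ_{ω+1}` (for
instance on the ordinal `ω_{ω+1}`) there is an admissible set mapping `f`, i.e. `x ∉ f x`,
`|f x| ≤ ℵ_ω` and `|f x ∩ f y| < ℵ_ω` for `x ≠ y`, all of whose free sets have size at most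
`ℵ_ω`. -/
theorem result (α : Type u) (hα : #α = ℵ_ (Ordinal.omega0 + 1))
    (hpow : (2 : Cardinal.{u}) ^ ℵ_ Ordinal.omega0 = ℵ_ (Ordinal.omega0 + 1)) :
    ∃ f : α → Set α, (∀ x, x ∉ f x) ∧ (∀ x, #(f x) ≤ ℵ_ Ordinal.omega0) ∧
      (∀ x y, x ≠ y → #(f x ∩ f y : Set α) < ℵ_ Ordinal.omega0) ∧
      ∀ Y : Set α, (∀ x ∈ Y, ∀ y ∈ Y, x ≠ y → y ∉ f x) → #Y ≤ ℵ_ Ordinal.omega0 := by
  let T : Type u := (ℵ_ (Ordinal.omega0.{u} + 1)).ord.ToType
  have hT : #T = ℵ_ (Ordinal.omega0.{u} + 1) := mk_ord_toType _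
  have hseg : ∀ a : T, #(Iic a) ≤ ℵ_ Ordinal.omega0.{u} := by
    intro a
    have h0 : #(Iio a) < #T := mk_Iio_lt a (by simp [T])
    have h1 : #(Iio a) ≤ ℵ_ Ordinal.omega0.{u} :=
      lt_succ_iff.mp (lt_of_lt_of_eq h0 (hT.trans (succ_aleph _).symm))
    rw [← Iio_insert]
    exact (mk_insert_le).trans (add_le_of_le (aleph0_le_aleph _) h1
      (one_le_aleph0.trans (aleph0_le_aleph _)))
  obtain ⟨g, hg1, hg2, hg3, hg4⟩ := main hT hseg hpow
  obtain ⟨e⟩ := Cardinal.eq.mp (hα.trans hT.symm)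
  refine ⟨fun x => e ⁻¹' g (e x), ?_, ?_, ?_, ?_⟩
  · intro x hx
    exact hg1 (e x) hx
  · intro x
    rw [mk_preimage_equiv]
    exact hg2 (e x)
  · intro x y hxy
    rw [← preimage_inter, mk_preimage_equiv]
    exact hg3 (e x) (e y) (fun h => hxy (e.injective h))
  · intro Y hY
    have h1 := hg4 (e '' Y) (by
      rintro _ ⟨x, hx, rfl⟩ _ ⟨y, hy, rfl⟩ hne
      exact hY x hx y hy (fun h => hne (by rw [h])))
    rwa [mk_image_eq e.injective] at h1


end Pool.Agent.Results.MP_711cdf_lc.NoLargeFreeSet
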